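import Pool.Agent.Q276.CN.Stm2
import Pool.Agent.Q276.PL.All

/-!
# Project CN: few discriminants have a small unit, all non-squares (job BADG)
-/

set_option autoImplicit false

open Finset Filter

namespace Pool.Agent.Q214.CN

open Pool.Agent.Q276.CN Pool.Agent.Q276.PL

lemma small_of_not_bigU (D : ℕ) (hD : ¬ IsSquare D) (L : ℝ) (h : ¬ BigU D L) :
    ∃ f d : ℕ, f ^ 2 * d = D ∧ 1 ≤ f ∧ 2 ≤ d ∧ Squarefree d ∧ SmallUnit (dsc d) (Real.exp L) := by
  obtain ⟨d, f, hfd, hsq⟩ := Nat.sq_mul_squarefree D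
  have hD0 : D ≠ 0 := fun h0 => hD (h0 ▸ ⟨0, rfl⟩)
  have hf : 1 ≤ f := by
    rcases Nat.eq_zero_or_pos f with h0 | h0
    · exfalso; apply hD0; rw [← hfd, h0]; simp
    · exact h0
  have hd0 : d ≠ 0 := hsq.ne_zero
  have hd1 : d ≠ 1 := by
    rintro rfl
    exact hD ⟨f, by rw [← hfd]; ring⟩
  unfold BigU at h
  push Not at h
  obtain ⟨T, U, hT, hU, he, hl⟩ := h
  refine ⟨f, d, hfd, hf, by omega, hsq, ?_⟩
  lift T to ℕ using hT.le
  lift U to ℕ using hU.le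
  have hT' : 0 < T := by exact_mod_cast hT
  have hU' : 0 < U := by exact_mod_cast hU
  have hsqrt : √(D : ℝ) = f * √(d : ℝ) := by
    rw [← hfd]; push_cast
    rw [Real.sqrt_mul (by positivity), Real.sqrt_sq (by positivity)]
  have hlt : ((T : ℝ) + U * √(D : ℝ)) / 2 ≤ Real.exp L := by
    have hpos : 0 < ((T : ℝ) + U * √(D : ℝ)) / 2 := by positivity
    exact (Real.log_le_iff_le_exp hpos).mp (by simpa using hl.le)
  rw [hsqrt] at hlt
  have he2 : (T : ℤ) ^ 2 - d * (f * U) ^ 2 = 4 := by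
    rw [← he, ← hfd]; push_cast; ring
  by_cases h4 : d % 4 = 1
  · refine ⟨T, f * U, hT', by positivity, Or.inl ?_, ?_⟩
    · rw [dsc, if_pos h4]; push_cast; exact he2
    · rw [dsc, if_pos h4]; push_cast
      refine le_trans (le_of_eq ?_) hlt
      ring
  · have hN : T ^ 2 = 4 + d * (f * U) ^ 2 := by zify; linarith
    have hev : Even (f * U) := by
      by_contra hodd
      rw [Nat.not_even_iff_odd, Nat.odd_iff] at hodd
      have h40 : d % 4 ≠ 0 := fun h0 => by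
        have h5 := hsq 2 (by omega)
        rw [Nat.isUnit_iff] at h5
        omega
      have h5 : T ^ 2 % 4 = (4 + d * (f * U) ^ 2) % 4 := by rw [hN]
      have hq : (f * U) % 4 = 1 ∨ (f * U) % 4 = 3 := by omega
      have hd : d % 4 = 2 ∨ d % 4 = 3 := by omega
      have hT4 : T % 4 = 0 ∨ T % 4 = 1 ∨ T % 4 = 2 ∨ T % 4 = 3 := by omega
      rw [Nat.add_mod, Nat.mul_mod, Nat.pow_mod T, Nat.pow_mod (f * U)] at h5
      rcases hq with hq | hq <;> rcases hd with hd | hd <;>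
        rcases hT4 with hT4 | hT4 | hT4 | hT4 <;> rw [hq, hd, hT4] at h5 <;> norm_num at h5
    obtain ⟨m, hm⟩ := hev
    have hm0 : 0 < m := by
      have : 0 < f * U := by positivity
      omega
    have hmR : (f : ℝ) * U = m + m := by exact_mod_cast hm
    refine ⟨T, m, hT', hm0, Or.inl ?_, ?_⟩
    · rw [dsc, if_neg h4, ← he2]
      have hmZ : (f : ℤ) * U = m + m := by exact_mod_cast hm
      rw [hmZ]; push_cast; ring
    · rw [dsc, if_neg h4]; push_cast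
      rw [Real.sqrt_mul (by norm_num), show (4 : ℝ) = 2 ^ 2 by norm_num, Real.sqrt_sq (by norm_num)]
      refine le_trans (le_of_eq ?_) hlt
      rw [show (U : ℝ) * (f * √(d : ℝ)) = (f * U) * √(d : ℝ) by ring, hmR]
      ring

lemma ev1 (δ : ℝ) (h0 : 0 < δ) : ∀ᶠ y : ℝ in atTop, y ^ (3 / 2 - δ) ≤ (y / 3) ^ (3 / 2 - δ / 2) := by
  filter_upwards [eventually_gt_atTop (0 : ℝ),
    (tendsto_rpow_atTop (half_pos h0)).eventually_ge_atTop ((3 : ℝ) ^ (3 / 2 - δ / 2))] with y hy h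
  rw [Real.div_rpow hy.le (by norm_num), le_div_iff₀ (by positivity)]
  calc y ^ (3 / 2 - δ) * 3 ^ (3 / 2 - δ / 2) ≤ y ^ (3 / 2 - δ) * y ^ (δ / 2) :=
        mul_le_mul_of_nonneg_left h (by positivity)
    _ = y ^ (3 / 2 - δ / 2) := by
        rw [← Real.rpow_add hy]; congr 1; ring

lemma ev2 (δ : ℝ) (h1 : δ < 1 / 2) : ∀ᶠ y : ℝ in atTop, y ^ (δ / 16) ≤ y / 2 := by
  filter_upwards [eventually_ge_atTop (4 : ℝ)] with y hy
  have hy0 : 0 ≤ y := by linarith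
  calc y ^ (δ / 16) ≤ y ^ (1 / 2 : ℝ) :=
        Real.rpow_le_rpow_of_exponent_le (by linarith) (by linarith)
    _ = √y := by rw [Real.sqrt_eq_rpow]
    _ ≤ y / 2 := by
        rw [Real.sqrt_le_left (by linarith)]
        nlinarith

lemma sum_inv_sq (F : ℕ) (hF : 1 ≤ F) : ∑ f ∈ Icc 1 F, ((f : ℝ) ^ 2)⁻¹ ≤ 2 := by
  have h1 : Icc 1 F = insert 1 (Ioc 1 F) := by
    ext x; simp only [mem_Icc, mem_insert, mem_Ioc]; omega
  rw [h1, sum_insert (by simp)]
  have h2 := sum_Ioc_inv_sq_le_sub (α := ℝ) (k := 1) (n := F) one_ne_zero hF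
  have h3 : (0 : ℝ) ≤ (F : ℝ)⁻¹ := by positivity
  norm_num at h2 ⊢
  linarith

open Classical in
/-- the squarefree numbers `d ≤ N / f²` with a unit of logarithm at most `L` -/
noncomputable def G (N f : ℕ) (L : ℝ) : Finset ℕ :=
  (Icc 2 (N / f ^ 2)).filter (fun d => Squarefree d ∧ SmallUnit (dsc d) (Real.exp L))

open Classical in
lemma cover (N F : ℕ) (L : ℝ) :
    (((range N).filter (fun D => ¬ IsSquare D ∧ ¬ BigU D L)).card : ℕ) ≤
      ∑ f ∈ Icc 1 F, (G N f L).card + ∑ f ∈ Ioc F N, N / f ^ 2 := by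
  have h1 : (range N).filter (fun D => ¬ IsSquare D ∧ ¬ BigU D L) ⊆
      (Icc 1 F).biUnion (fun f => (G N f L).image (fun d => f ^ 2 * d)) ∪
      (Ioc F N).biUnion (fun f => (Icc 1 (N / f ^ 2)).image (fun d => f ^ 2 * d)) := by
    intro D hD
    rw [mem_filter, mem_range] at hD
    obtain ⟨hDN, hsq, hb⟩ := hD
    obtain ⟨f, d, hfd, hf, hd, hs, hu⟩ := small_of_not_bigU D hsq L hb
    have hf2 : 0 < f ^ 2 := by positivity
    have hdX : d ≤ N / f ^ 2 := by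
      rw [Nat.le_div_iff_mul_le hf2, mul_comm, hfd]; exact hDN.le
    rw [mem_union, mem_biUnion, mem_biUnion]
    rcases le_or_gt f F with hfF | hfF
    · left
      refine ⟨f, mem_Icc.mpr ⟨hf, hfF⟩, mem_image.mpr ⟨d, ?_, hfd⟩⟩
      rw [G, mem_filter, mem_Icc]
      exact ⟨⟨hd, hdX⟩, hs, hu⟩
    · right
      refine ⟨f, mem_Ioc.mpr ⟨hfF, ?_⟩, mem_image.mpr ⟨d, mem_Icc.mpr ⟨by omega, hdX⟩, hfd⟩⟩
      have h5 : f ≤ f ^ 2 := Nat.le_self_pow two_ne_zero f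
      have h6 : f ^ 2 ≤ f ^ 2 * d := Nat.le_mul_of_pos_right _ (by omega)
      omega
  refine (card_le_card h1).trans ((card_union_le _ _).trans (add_le_add ?_ ?_))
  · exact card_biUnion_le.trans (sum_le_sum fun f _ => card_image_le)
  · refine card_biUnion_le.trans (sum_le_sum fun f _ => card_image_le.trans ?_)
    rw [Nat.card_Icc, Nat.add_sub_cancel]

open Classical in
theorem badg : StmtBADG := by
  intro δ h0 h1
  obtain ⟨M, hM⟩ := rgb_true (δ / 2) (by linarith) (by linarith)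
  have hlog : Tendsto (fun N : ℕ => Real.log N) atTop atTop :=
    Real.tendsto_log_atTop.comp tendsto_natCast_atTop_atTop
  have hlog3 : Tendsto (fun N : ℕ => Real.log N / 3) atTop atTop :=
    hlog.atTop_div_const (by norm_num)
  obtain ⟨N1, hN1⟩ := eventually_atTop.mp ((hlog.eventually (ev1 δ h0)).and
    (hlog3.eventually (ev2 δ h1)))
  refine ⟨2 * max M 0 + 1, max N1 81, by positivity, fun N hN => ?_⟩
  obtain ⟨he1, he2⟩ := hN1 N ((le_max_left _ _).trans hN)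
  have hN81 : 81 ≤ N := (le_max_right _ _).trans hN
  set s := Nat.sqrt N with hs
  set F := Nat.sqrt s with hF
  have hs9 : 9 ≤ s := Nat.le_sqrt'.mpr (by omega)
  have hF3 : 3 ≤ F := Nat.le_sqrt'.mpr (by omega)
  have hsN : s ^ 2 ≤ N := Nat.sqrt_le' N
  have hFs : F ^ 2 ≤ s := Nat.sqrt_le' s
  have hNs : N < (s + 1) ^ 2 := Nat.lt_succ_sqrt' N
  have hsF : s < (F + 1) ^ 2 := Nat.lt_succ_sqrt' s
  have hNR : (0 : ℝ) < N := by exact_mod_cast (by omega : 0 < N)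
  have hFR : (0 : ℝ) < F := by exact_mod_cast (by omega : 0 < F)
  have hsR : (0 : ℝ) < s := by exact_mod_cast (by omega : 0 < s)
  have hlogN : 0 ≤ Real.log N := Real.log_natCast_nonneg N
  -- logarithms
  have hls : Real.log N / 3 ≤ Real.log s := by
    have h5 : N ≤ s ^ 3 := by nlinarith
    have h6 : (N : ℝ) ≤ (s : ℝ) ^ 3 := by exact_mod_cast h5
    have h7 := Real.log_le_log hNR h6
    rw [Real.log_pow] at h7
    push_cast at h7
    linarith
  have hlF : Real.log N / 3 / 2 ≤ Real.log F := by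
    have h5 : s + 1 ≤ F ^ 3 := by
      have : (F + 1) ^ 2 ≤ F ^ 3 := by nlinarith
      omega
    have h5' : N ≤ F ^ 6 := by
      calc N ≤ (s + 1) ^ 2 := hNs.le
        _ ≤ (F ^ 3) ^ 2 := Nat.pow_le_pow_left h5 2
        _ = F ^ 6 := by ring
    have h6 : (N : ℝ) ≤ (F : ℝ) ^ 6 := by exact_mod_cast h5'
    have h7 := Real.log_le_log hNR h6
    rw [Real.log_pow] at h7
    push_cast at h7
    linarith
  set E : ℝ := Real.exp (-(Real.log N / 3) ^ (δ / 16)) with hE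
  have hE0 : 0 < E := Real.exp_pos _
  have htail : ((F : ℝ))⁻¹ ≤ E := by
    rw [hE, ← Real.exp_log hFR, ← Real.exp_neg]
    refine Real.exp_le_exp.mpr ?_
    linarith
  have hG : ∀ f ∈ Icc 1 F, ((G N f (Real.log N ^ (3 / 2 - δ))).card : ℝ) ≤
      max M 0 * N * E * ((f : ℝ) ^ 2)⁻¹ := by
    intro f hf
    rw [mem_Icc] at hf
    have hf2 : 0 < f ^ 2 := by have := hf.1; positivity
    have hfs : f ^ 2 ≤ s := (Nat.pow_le_pow_left hf.2 2).trans hFs
    have hX : s ≤ N / f ^ 2 := by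
      rw [Nat.le_div_iff_mul_le hf2]
      calc s * f ^ 2 ≤ s * s := Nat.mul_le_mul_left _ hfs
        _ = s ^ 2 := by ring
        _ ≤ N := hsN
    have hX2 : 2 ≤ N / f ^ 2 := by omega
    have hlX : Real.log N / 3 ≤ Real.log ((N / f ^ 2 : ℕ) : ℝ) :=
      hls.trans (Real.log_le_log hsR (by exact_mod_cast hX))
    have hL : Real.log N ^ (3 / 2 - δ) ≤ Real.log ((N / f ^ 2 : ℕ) : ℝ) ^ (3 / 2 - δ / 2) :=
      he1.trans (Real.rpow_le_rpow (by positivity) hlX (by linarith))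
    have h5 : ((G N f (Real.log N ^ (3 / 2 - δ))).card : ℝ) ≤
        M * (N / f ^ 2 : ℕ) * Real.exp (-(Real.log ((N / f ^ 2 : ℕ) : ℝ) ^ (δ / 2 / 8))) := by
      refine le_trans (Nat.cast_le.mpr (card_le_card fun d hd => ?_)) (hM _ hX2)
      rw [G, mem_filter] at hd
      rw [mem_filter]
      obtain ⟨h6, h7, t, u, ht, hu, hv, hw⟩ := hd
      exact ⟨h6, h7, t, u, ht, hu, hv, hw.trans (Real.exp_le_exp.mpr hL)⟩
    have h8 : Real.exp (-(Real.log ((N / f ^ 2 : ℕ) : ℝ) ^ (δ / 2 / 8))) ≤ E := by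
      rw [hE]
      refine Real.exp_le_exp.mpr (neg_le_neg ?_)
      rw [show δ / 16 = δ / 2 / 8 by ring]
      exact Real.rpow_le_rpow (by positivity) hlX (by linarith)
    have h9 : ((N / f ^ 2 : ℕ) : ℝ) ≤ N * ((f : ℝ) ^ 2)⁻¹ := by
      have h10 : ((N / f ^ 2 : ℕ) : ℝ) ≤ (N : ℝ) / ((f ^ 2 : ℕ) : ℝ) := Nat.cast_div_le
      rw [← div_eq_mul_inv]
      simpa using h10
    calc ((G N f (Real.log N ^ (3 / 2 - δ))).card : ℝ)
        ≤ M * (N / f ^ 2 : ℕ) * Real.exp (-(Real.log ((N / f ^ 2 : ℕ) : ℝ) ^ (δ / 2 / 8))) := h5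
      _ ≤ max M 0 * (N * ((f : ℝ) ^ 2)⁻¹) * E := by
          refine mul_le_mul (mul_le_mul (le_max_left _ _) h9 (Nat.cast_nonneg _) (le_max_right _ _))
            h8 (Real.exp_pos _).le (by positivity)
      _ = _ := by ring
  have hcov := cover N F (Real.log N ^ (3 / 2 - δ))
  have hcov' : ((((range N).filter (fun D => ¬ IsSquare D ∧
      ¬ BigU D (Real.log N ^ (3 / 2 - δ)))).card : ℕ) : ℝ) ≤
      ∑ f ∈ Icc 1 F, ((G N f (Real.log N ^ (3 / 2 - δ))).card : ℝ) +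
        ∑ f ∈ Ioc F N, ((N / f ^ 2 : ℕ) : ℝ) := by
    exact_mod_cast hcov
  refine hcov'.trans ?_
  have hFN : F ≤ N := by nlinarith
  have hA : ∑ f ∈ Icc 1 F, ((G N f (Real.log N ^ (3 / 2 - δ))).card : ℝ) ≤
      max M 0 * N * E * 2 := by
    calc _ ≤ ∑ f ∈ Icc 1 F, max M 0 * N * E * ((f : ℝ) ^ 2)⁻¹ := sum_le_sum hG
      _ = max M 0 * N * E * ∑ f ∈ Icc 1 F, ((f : ℝ) ^ 2)⁻¹ := by rw [mul_sum]
      _ ≤ _ := mul_le_mul_of_nonneg_left (sum_inv_sq F (by omega)) (by positivity)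
  have hB : ∑ f ∈ Ioc F N, ((N / f ^ 2 : ℕ) : ℝ) ≤ N * E := by
    calc _ ≤ ∑ f ∈ Ioc F N, (N : ℝ) * ((f : ℝ) ^ 2)⁻¹ := by
          refine sum_le_sum fun f _ => ?_
          have h10 : ((N / f ^ 2 : ℕ) : ℝ) ≤ (N : ℝ) / ((f ^ 2 : ℕ) : ℝ) := Nat.cast_div_le
          rw [← div_eq_mul_inv]
          simpa using h10
      _ = N * ∑ f ∈ Ioc F N, ((f : ℝ) ^ 2)⁻¹ := by rw [mul_sum]
      _ ≤ N * (F : ℝ)⁻¹ := by
          refine mul_le_mul_of_nonneg_left ?_ hNR.le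
          have h11 := sum_Ioc_inv_sq_le_sub (α := ℝ) (k := F) (n := N) (by omega) hFN
          have h12 : (0 : ℝ) ≤ (N : ℝ)⁻¹ := by positivity
          linarith
      _ ≤ N * E := mul_le_mul_of_nonneg_left htail hNR.le
  calc _ ≤ max M 0 * N * E * 2 + N * E := add_le_add hA hB
    _ = (2 * max M 0 + 1) * N * E := by ring

end Pool.Agent.Q214.CN
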