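import Pool.Agent.Q276.CN.Stm2
import Pool.Agent.W37.RK.BL1

/-!
# Project CN: second moment of the number of reduced forms (job RSQ)
-/

set_option autoImplicit false

open Finset

namespace Pool.Agent.Q214.CN

open Pool.Agent.Q276.CN

open Classical in
/-- the reduced forms with middle coefficient `b` -/
noncomputable def RF (D b : ℕ) : Finset (ℤ × ℤ × ℤ) := (redF D).filter (fun t => t.2.1.toNat = b)

lemma mem_RF (hM : StmtMEM) {D b : ℕ} {t : ℤ × ℤ × ℤ} (ht : t ∈ RF D b) :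
    0 < b ∧ t.2.1 = (b : ℤ) ∧ t.1 * t.2.2 < 0 ∧ (b : ℤ) ^ 2 - 4 * (t.1 * t.2.2) = D := by
  rw [RF, mem_filter] at ht
  obtain ⟨h1, h2⟩ := ht
  obtain ⟨⟨h3, -⟩, h4, h5, -⟩ := (hM D t).mp h1
  have h6 : t.2.1 = (b : ℤ) := by omega
  refine ⟨by omega, h6, h5, ?_⟩
  rw [← h6, ← h3]
  ring

lemma card_RF (hM : StmtMEM) (b n : ℕ) (hn : 1 ≤ n) :
    (RF (b ^ 2 + 4 * n) b).card ≤ 2 * n.divisors.card := by
  have h2 : 2 * n.divisors.card = ((univ : Finset Bool) ×ˢ n.divisors).card := by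
    rw [card_product]; simp
  rw [h2]
  have key : ∀ t ∈ RF (b ^ 2 + 4 * n) b, t.1 * t.2.2 = -(n : ℤ) := by
    intro t ht
    obtain ⟨-, -, -, h⟩ := mem_RF hM ht
    push_cast at h
    linarith
  refine card_le_card_of_injOn (fun t => (decide (0 < t.1), t.1.natAbs)) ?_ ?_
  · intro t ht
    have h := key t ht
    simp only [coe_product, Set.mem_prod, mem_coe, mem_univ, true_and, Nat.mem_divisors]
    refine ⟨?_, by omega⟩
    have h3 : (t.1).natAbs ∣ (-(n : ℤ)).natAbs := by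
      rw [← h, Int.natAbs_mul]; exact Dvd.intro _ rfl
    simpa using h3
  · intro t ht t' ht' he
    obtain ⟨-, h1, h3, -⟩ := mem_RF hM ht
    obtain ⟨-, h1', h3', -⟩ := mem_RF hM ht'
    have h := key t ht
    have h' := key t' ht'
    simp only [Prod.mk.injEq, decide_eq_decide] at he
    obtain ⟨he1, he2⟩ := he
    have h4 : t.1 ≠ 0 := fun h0 => by rw [h0] at h3; simp at h3
    have h4' : t'.1 ≠ 0 := fun h0 => by rw [h0] at h3'; simp at h3'
    have h5 : t.1 = t'.1 := by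
      rcases lt_or_gt_of_ne h4 with h6 | h6 <;> rcases lt_or_gt_of_ne h4' with h7 | h7 <;> omega
    have h6 : t.2.2 = t'.2.2 := by
      have h8 : t.1 * t.2.2 = t.1 * t'.2.2 := by rw [h, h5, h']
      exact mul_left_cancel₀ h4 h8
    exact Prod.ext h5 (Prod.ext (h1.trans h1'.symm) h6)

lemma sum_RF (hM : StmtMEM) (N b : ℕ) :
    ∑ D ∈ range N, (RF D b).card ^ 2 ≤ 4 * ∑ n ∈ Icc 1 N, n.divisors.card ^ 2 := by
  calc ∑ D ∈ range N, (RF D b).card ^ 2
      ≤ ∑ D ∈ (Icc 1 N).image (fun n => b ^ 2 + 4 * n), (RF D b).card ^ 2 := by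
        refine sum_le_sum_of_ne_zero fun D hD h0 => ?_
        have h1 : (RF D b).card ≠ 0 := fun h => h0 (by rw [h]; rfl)
        obtain ⟨t, ht⟩ := card_pos.mp (Nat.pos_of_ne_zero h1)
        obtain ⟨-, -, h3, h4⟩ := mem_RF hM ht
        rw [mem_range] at hD
        refine mem_image.mpr ⟨(t.1 * t.2.2).natAbs, mem_Icc.mpr ⟨?_, ?_⟩, ?_⟩
        · omega
        · zify
          rw [abs_of_neg h3]
          have h5 : (0 : ℤ) ≤ (b : ℤ) ^ 2 := by positivity
          have h6 : (D : ℤ) < N := by exact_mod_cast hD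
          linarith
        · zify
          rw [abs_of_neg h3]
          linarith
    _ = ∑ n ∈ Icc 1 N, (RF (b ^ 2 + 4 * n) b).card ^ 2 := by
        refine sum_image fun x _ y _ h => ?_
        have h' : b ^ 2 + 4 * x = b ^ 2 + 4 * y := h
        omega
    _ ≤ ∑ n ∈ Icc 1 N, 4 * n.divisors.card ^ 2 := by
        refine sum_le_sum fun n hn => ?_
        have h := Nat.pow_le_pow_left (card_RF hM b n (mem_Icc.mp hn).1) 2
        rw [mul_pow] at h
        exact h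
    _ = _ := by rw [mul_sum]

lemma card_redF (hM : StmtMEM) (N D : ℕ) (hD : D < N) :
    ((redF D).card : ℝ) ^ 2 ≤ Nat.sqrt N * ∑ b ∈ Icc 1 (Nat.sqrt N), ((RF D b).card : ℝ) ^ 2 := by
  have h1 : (redF D).card = ∑ b ∈ Icc 1 (Nat.sqrt N), (RF D b).card := by
    refine card_eq_sum_card_fiberwise (f := fun t : ℤ × ℤ × ℤ => t.2.1.toNat) fun t ht => ?_
    have ht' : t ∈ RF D (t.2.1.toNat) := by
      rw [RF, mem_filter]; exact ⟨ht, rfl⟩
    obtain ⟨h3, h4, h5, h6⟩ := mem_RF hM ht'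
    rw [mem_coe, mem_Icc]
    refine ⟨h3, Nat.le_sqrt'.mpr ?_⟩
    zify
    have h7 : (D : ℤ) < N := by exact_mod_cast hD
    linarith
  have h2 : ((redF D).card : ℝ) = ∑ b ∈ Icc 1 (Nat.sqrt N), ((RF D b).card : ℝ) := by
    rw [h1]; push_cast; rfl
  rw [h2]
  have h3 := sq_sum_le_card_mul_sum_sq (s := Icc 1 (Nat.sqrt N)) (f := fun b => ((RF D b).card : ℝ))
  simpa using h3

theorem rsq (hM : StmtMEM) : StmtRSQ := by
  refine ⟨64, 4, by norm_num, fun N hN => ?_⟩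
  have hs : ((Nat.sqrt N : ℕ) : ℝ) * (Nat.sqrt N : ℕ) ≤ N := by
    exact_mod_cast Nat.sqrt_le N
  have hlog : 1 ≤ Real.log N := by
    rw [Real.le_log_iff_exp_le (by positivity)]
    have h3 : (3 : ℝ) ≤ N := by exact_mod_cast hN
    have := Real.exp_one_lt_d9
    linarith
  have hS := W37.RK.sum_card_pow 2 N
  have hN0 : (0 : ℝ) ≤ N := Nat.cast_nonneg N
  calc ∑ D ∈ range N, ((redF D).card : ℝ) ^ 2
      ≤ ∑ D ∈ range N, (Nat.sqrt N * ∑ b ∈ Icc 1 (Nat.sqrt N), ((RF D b).card : ℝ) ^ 2) :=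
        sum_le_sum fun D hD => card_redF hM N D (mem_range.mp hD)
    _ = Nat.sqrt N * ∑ b ∈ Icc 1 (Nat.sqrt N), ∑ D ∈ range N, ((RF D b).card : ℝ) ^ 2 := by
        rw [← mul_sum, sum_comm]
    _ ≤ Nat.sqrt N * ∑ b ∈ Icc 1 (Nat.sqrt N), (4 * ∑ n ∈ Icc 1 N, (n.divisors.card : ℝ) ^ 2) := by
        refine mul_le_mul_of_nonneg_left (sum_le_sum fun b _ => ?_) (Nat.cast_nonneg _)
        exact_mod_cast sum_RF hM N b
    _ = ((Nat.sqrt N : ℕ) : ℝ) * (Nat.sqrt N : ℕ) * (4 * ∑ n ∈ Icc 1 N, (n.divisors.card : ℝ) ^ 2) := by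
        rw [sum_const, Nat.card_Icc, nsmul_eq_mul]
        push_cast [Nat.add_sub_cancel]
        ring
    _ ≤ N * (4 * (N * (1 + Real.log N) ^ (2 ^ 2))) := by
        refine mul_le_mul hs (by linarith) (by positivity) hN0
    _ ≤ N * (4 * (N * (2 * Real.log N) ^ (2 ^ 2))) := by
        gcongr
        linarith
    _ = 64 * (N : ℝ) ^ 2 * Real.log N ^ 4 := by ring

end Pool.Agent.Q214.CN
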